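import Mathlib

set_option autoImplicit false

open Finset
open scoped BigOperators

namespace Pool.Agent.U324.Relax

variable {V : Type*}

/-- sum of `H` over consecutive pairs of a list -/
def P (H : V → V → ℝ) : List V → ℝ
  | [] => 0
  | [_] => 0
  | a :: b :: t => H a b + P H (b :: t)

lemma P_insert (H : V → V → ℝ) (u v : V) (l1 l2 : List V) :
    P H (l1 ++ u :: v :: u :: l2) = P H (l1 ++ u :: l2) + (H u v + H v u) := by
  induction l1 with
  | nil =>
    simp only [List.nil_append, P]
    ring
  | cons a t ih =>
    cases t with
    | nil =>
      simp only [List.nil_append, List.cons_append, P] at ih ⊢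
      linarith
    | cons b t =>
      simp only [List.cons_append, P] at ih ⊢
      linarith

/-- convert to a sum over indices -/
lemma P_eq_sum (H : V → V → ℝ) (d : V) (l : List V) :
    P H l = ∑ i ∈ Finset.range (l.length - 1), H (l.getD i d) (l.getD (i + 1) d) := by
  induction l with
  | nil => simp [P]
  | cons a t ih =>
    cases t with
    | nil => simp [P]
    | cons b t =>
      simp only [P, List.length_cons, Nat.add_sub_cancel] at ih ⊢
      rw [Finset.sum_range_succ', ih]
      simp only [List.getD_cons_succ, List.getD_cons_zero]
      ring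

variable [Fintype V] [DecidableEq V]

/-- existence of the doubled Euler tour of a connected graph -/
theorem exists_tour (G : SimpleGraph V) [DecidableRel G.Adj] (hG : G.Connected) :
    ∃ (v0 : V) (l : List V), l.head? = some v0 ∧ l.getLast? = some v0 ∧
      ∀ H : V → V → ℝ, P H l = ∑ u, ∑ v, if G.Adj u v then H u v else 0 := by
  obtain ⟨v0⟩ := hG.nonempty
  refine ⟨v0, ?_⟩
  -- the property for an edge set
  let Q : Finset (Sym2 V) → Prop := fun S =>
    ∃ l : List V, l.head? = some v0 ∧ l.getLast? = some v0 ∧
      (∀ a b, s(a, b) ∈ S → a ∈ l) ∧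
      ∀ H : V → V → ℝ, P H l = ∑ u, ∑ v, if s(u, v) ∈ S then H u v else 0
  have hQ0 : Q ∅ := ⟨[v0], by simp, by simp, by simp, by intro H; simp [P]⟩
  -- take a maximal S
  classical
  have hne : (G.edgeFinset.powerset.filter Q).Nonempty :=
    ⟨∅, by simp [hQ0]⟩
  obtain ⟨S, hS, hmax⟩ := Finset.exists_max_image _ Finset.card hne
  simp only [Finset.mem_filter, Finset.mem_powerset] at hS hmax
  obtain ⟨hSG, l, hh, hl, hcov, hP⟩ := hS
  have hv0 : v0 ∈ l := List.mem_of_mem_head? (by rw [hh]; rfl)
  have hSeq : S = G.edgeFinset := by
    by_contra hne'
    -- find an uncovered edge at a visited vertex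
    have : ∃ u v, G.Adj u v ∧ s(u, v) ∉ S ∧ u ∈ l := by
      by_cases hall : ∀ z, z ∈ l
      · have : ∃ e ∈ G.edgeFinset, e ∉ S := by
          by_contra hcon
          push Not at hcon
          exact hne' (Finset.Subset.antisymm hSG hcon)
        obtain ⟨e, he, heS⟩ := this
        induction e using Sym2.ind with
        | _ a b =>
          rw [SimpleGraph.mem_edgeFinset, SimpleGraph.mem_edgeSet] at he
          exact ⟨a, b, he, heS, hall a⟩
      · push Not at hall
        obtain ⟨z, hz⟩ := hall
        obtain ⟨p⟩ := hG.preconnected v0 z
        obtain ⟨d, hd, hd1, hd2⟩ := p.exists_boundary_dart {x | x ∈ l} hv0 hz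
        refine ⟨d.fst, d.snd, d.adj, ?_, hd1⟩
        intro hmem
        apply hd2
        have : s(d.snd, d.fst) ∈ S := by rw [Sym2.eq_swap]; exact hmem
        exact hcov _ _ this
    obtain ⟨u, v, huv, hnS, hul⟩ := this
    obtain ⟨l1, l2, rfl⟩ := List.append_of_mem hul
    have hQ' : Q (insert s(u, v) S) := by
      refine ⟨l1 ++ u :: v :: u :: l2, ?_, ?_, ?_, ?_⟩
      · cases l1 with
        | nil => simpa using hh
        | cons a t => simpa using hh
      · cases l2 with
        | nil => simpa using hl
        | cons a t => simpa [List.getLast?_append] using hl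
      · intro a b hab
        rw [Finset.mem_insert] at hab
        rcases hab with hab | hab
        · rw [Sym2.eq_iff] at hab
          rcases hab with ⟨rfl, rfl⟩ | ⟨rfl, rfl⟩ <;> simp
        · have := hcov a b hab
          simp only [List.mem_append, List.mem_cons] at this ⊢
          tauto
      · intro H
        rw [P_insert, hP]
        have hne2 : u ≠ v := huv.ne
        have hsplit : ∀ a b, (if s(a, b) ∈ insert s(u, v) S then H a b else 0)
            = (if s(a, b) ∈ S then H a b else 0)
              + ((if a = u then (if b = v then H a b else 0) else 0)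
              + (if a = v then (if b = u then H a b else 0) else 0)) := by
          intro a b
          by_cases h1 : s(a, b) = s(u, v)
          · have h2 : s(a, b) ∉ S := by rw [h1]; exact hnS
            have h3 : s(a, b) ∈ insert s(u, v) S := by rw [h1]; exact Finset.mem_insert_self _ _
            rw [if_pos h3, if_neg h2]
            rw [Sym2.eq_iff] at h1
            rcases h1 with ⟨rfl, rfl⟩ | ⟨rfl, rfl⟩
            · simp [hne2]
            · simp [hne2.symm]
          · have h3 : (s(a, b) ∈ insert s(u, v) S) ↔ s(a, b) ∈ S := by
              rw [Finset.mem_insert]; tauto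
            simp only [h3]
            have h4 : ¬ (a = u ∧ b = v) := by
              rintro ⟨rfl, rfl⟩; exact h1 rfl
            have h5 : ¬ (a = v ∧ b = u) := by
              rintro ⟨rfl, rfl⟩; exact h1 Sym2.eq_swap
            have h6 : (if a = u then (if b = v then H a b else 0) else 0) = 0 := by
              split_ifs with h7 h8
              · exact absurd ⟨h7, h8⟩ h4
              · rfl
              · rfl
            have h7 : (if a = v then (if b = u then H a b else 0) else 0) = 0 := by
              split_ifs with h7 h8
              · exact absurd ⟨h7, h8⟩ h5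
              · rfl
              · rfl
            rw [h6, h7]; ring
        simp only [hsplit, Finset.sum_add_distrib]
        simp
    have hsub : insert s(u, v) S ⊆ G.edgeFinset := by
      intro e he
      rw [Finset.mem_insert] at he
      rcases he with rfl | he
      · rw [SimpleGraph.mem_edgeFinset, SimpleGraph.mem_edgeSet]; exact huv
      · exact hSG he
    have := hmax _ ⟨hsub, hQ'⟩
    rw [Finset.card_insert_of_notMem hnS] at this
    omega
  refine ⟨l, hh, hl, fun H => ?_⟩
  rw [hP H, hSeq]
  refine Finset.sum_congr rfl fun u _ => Finset.sum_congr rfl fun v _ => ?_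
  simp [SimpleGraph.mem_edgeFinset, SimpleGraph.mem_edgeSet]

end Pool.Agent.U324.Relax
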