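import Mathlib

set_option autoImplicit false

open Finset Complex
open scoped BigOperators

namespace Pool.Agent.U324.Relax

variable {N : ℕ} [NeZero N]

/-- finite Fourier transform on `ZMod N` -/
noncomputable def ft (f : ZMod N → ℂ) (k : ZMod N) : ℂ :=
  ∑ j, ZMod.stdAddChar (j * k) * f j

lemma conj_char (a : ZMod N) :
    (starRingEnd ℂ) (ZMod.stdAddChar a) = ZMod.stdAddChar (-a) := by
  rw [AddChar.map_neg_eq_conj]

lemma parseval (f : ZMod N → ℂ) :
    ∑ k, ft f k * (starRingEnd ℂ) (ft f k) = N * ∑ j, f j * (starRingEnd ℂ) (f j) := by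
  have h1 : ∀ k, ft f k * (starRingEnd ℂ) (ft f k)
      = ∑ j, ∑ l, ZMod.stdAddChar (k * (j - l)) * (f j * (starRingEnd ℂ) (f l)) := by
    intro k
    unfold ft
    rw [map_sum, Finset.sum_mul_sum]
    refine Finset.sum_congr rfl fun j _ => Finset.sum_congr rfl fun l _ => ?_
    rw [map_mul (starRingEnd ℂ), conj_char]
    have : (ZMod.stdAddChar (k * (j - l)) : ℂ)
        = ZMod.stdAddChar (j * k) * ZMod.stdAddChar (-(l * k)) := by
      rw [← AddChar.map_add_eq_mul]; congr 1; ring
    rw [this]; ring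
  rw [Finset.sum_congr rfl fun k _ => h1 k, Finset.sum_comm]
  rw [Finset.mul_sum]
  refine Finset.sum_congr rfl fun j _ => ?_
  rw [Finset.sum_comm]
  have h2 : ∀ l, ∑ k : ZMod N, (ZMod.stdAddChar (k * (j - l)) : ℂ) * (f j * (starRingEnd ℂ) (f l))
      = if j = l then (N : ℂ) * (f j * (starRingEnd ℂ) (f l)) else 0 := by
    intro l
    rw [← Finset.sum_mul, AddChar.sum_mulShift _ (ZMod.isPrimitive_stdAddChar N)]
    by_cases h : j = l
    · simp [h, ZMod.card]
    · have : j - l ≠ 0 := sub_ne_zero.mpr h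
      simp [h, this]
  rw [Finset.sum_congr rfl fun l _ => h2 l]
  simp

lemma parseval' (f : ZMod N → ℂ) :
    ∑ k, normSq (ft f k) = N * ∑ j, normSq (f j) := by
  have := parseval f
  simp only [Complex.mul_conj] at this
  exact_mod_cast this

lemma ft_shift (f : ZMod N → ℂ) (k : ZMod N) :
    ft (fun j => f (j + 1)) k = ZMod.stdAddChar (-k) * ft f k := by
  unfold ft
  rw [Finset.mul_sum]
  rw [← Equiv.sum_comp (Equiv.addRight (1 : ZMod N))
    (fun j => (ZMod.stdAddChar (-k) : ℂ) * (ZMod.stdAddChar (j * k) * f j))]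
  refine Finset.sum_congr rfl fun j _ => ?_
  simp only [Equiv.coe_addRight]
  rw [← mul_assoc, ← AddChar.map_add_eq_mul]
  congr 2
  ring

lemma ft_sub (f g : ZMod N → ℂ) (k : ZMod N) :
    ft (fun j => f j - g j) k = ft f k - ft g k := by
  unfold ft
  rw [← Finset.sum_sub_distrib]
  refine Finset.sum_congr rfl fun j _ => by ring

lemma cos_le_cos_of_mid (N k : ℕ) (hk : 1 ≤ k) (hkN : k < N) :
    Real.cos (2 * Real.pi * k / N) ≤ Real.cos (2 * Real.pi / N) := by
  have hN : (0 : ℝ) < N := by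
    have : 0 < N := by omega
    exact_mod_cast this
  have key : ∀ l : ℕ, 1 ≤ l → 2 * l ≤ N →
      Real.cos (2 * Real.pi * l / N) ≤ Real.cos (2 * Real.pi / N) := by
    intro l hl hlN
    apply Real.cos_le_cos_of_nonneg_of_le_pi
    · positivity
    · rw [div_le_iff₀ hN]
      have : (2 * l : ℝ) ≤ N := by exact_mod_cast hlN
      nlinarith [Real.pi_pos]
    · apply div_le_div_of_nonneg_right _ hN.le
      have : (1 : ℝ) ≤ l := by exact_mod_cast hl
      nlinarith [Real.pi_pos]
  by_cases h : 2 * k ≤ N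
  · exact key k hk h
  · have h2 := key (N - k) (by omega) (by omega)
    have h3 : (2 * Real.pi * ((N - k : ℕ) : ℝ) / N) = 2 * Real.pi - 2 * Real.pi * k / N := by
      rw [Nat.cast_sub hkN.le]
      field_simp
    rw [h3, Real.cos_two_pi_sub] at h2
    exact h2

lemma normSq_char (k : ZMod N) :
    normSq ((ZMod.stdAddChar (-k) : ℂ) - 1) = 2 - 2 * Real.cos (2 * Real.pi * k.val / N) := by
  have h1 : (ZMod.stdAddChar (-k) : ℂ) = exp ((-(2 * Real.pi * k.val / N) : ℝ) * I) := by
    have := ZMod.stdAddChar_coe (N := N) (-(k.val : ℤ))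
    have h2 : ((-(k.val : ℤ) : ℤ) : ZMod N) = -k := by
      push_cast
      rw [ZMod.natCast_zmod_val]
    rw [h2] at this
    rw [this]
    congr 1
    push_cast
    ring
  rw [h1, Complex.exp_mul_I, ← Complex.ofReal_cos, ← Complex.ofReal_sin]
  rw [Complex.normSq_apply]
  simp only [sub_re, add_re, ofReal_re, mul_re, I_re, I_im, ofReal_im, one_re, sub_im, add_im,
    mul_im, one_im, mul_zero, mul_one, zero_mul, sub_zero, add_zero, zero_add]
  rw [Real.cos_neg, Real.sin_neg]
  nlinarith [Real.sin_sq_add_cos_sq (2 * Real.pi * k.val / N)]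

/-- Discrete Wirtinger inequality on the cycle of length `N`. -/
theorem wirtinger (x : ZMod N → ℝ) (hx : ∑ j, x j = 0) :
    (2 - 2 * Real.cos (2 * Real.pi / N)) * ∑ j, x j ^ 2 ≤ ∑ j, (x (j + 1) - x j) ^ 2 := by
  set f : ZMod N → ℂ := fun j => (x j : ℂ) with hf
  have hN : (0 : ℝ) < N := by exact_mod_cast NeZero.pos N
  have h1 : ∑ k, normSq (ft f k) = N * ∑ j, x j ^ 2 := by
    rw [parseval' f]
    congr 1
    refine Finset.sum_congr rfl fun j _ => ?_
    simp [hf, normSq_ofReal, sq]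
  have h2 : ∑ k, normSq (ft (fun j => f (j + 1) - f j) k) = N * ∑ j, (x (j + 1) - x j) ^ 2 := by
    rw [parseval' (fun j => f (j + 1) - f j)]
    congr 1
    refine Finset.sum_congr rfl fun j _ => ?_
    have : f (j + 1) - f j = ((x (j + 1) - x j : ℝ) : ℂ) := by simp [hf]
    rw [this, normSq_ofReal, sq]
  have h3 : ∀ k, normSq (ft (fun j => f (j + 1) - f j) k)
      = (2 - 2 * Real.cos (2 * Real.pi * k.val / N)) * normSq (ft f k) := by
    intro k
    rw [ft_sub (fun j => f (j + 1)) f, ft_shift]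
    have : (ZMod.stdAddChar (-k) : ℂ) * ft f k - ft f k = (ZMod.stdAddChar (-k) - 1) * ft f k := by
      ring
    rw [this, map_mul, normSq_char]
  have h4 : ft f 0 = 0 := by
    unfold ft
    simp only [mul_zero, AddChar.map_zero_eq_one, one_mul, hf]
    exact_mod_cast congrArg (fun r : ℝ => (r : ℂ)) hx
  have h5 : (2 - 2 * Real.cos (2 * Real.pi / N)) * ∑ k, normSq (ft f k)
      ≤ ∑ k, normSq (ft (fun j => f (j + 1) - f j) k) := by
    rw [Finset.mul_sum]
    refine Finset.sum_le_sum fun k _ => ?_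
    rw [h3]
    by_cases hk : k = 0
    · rw [hk, h4]; simp
    · apply mul_le_mul_of_nonneg_right _ (normSq_nonneg _)
      have hk1 : 1 ≤ k.val := by
        rcases Nat.eq_zero_or_pos k.val with h | h
        · exact absurd ((ZMod.val_eq_zero k).mp h) hk
        · exact h
      have := cos_le_cos_of_mid N k.val hk1 (ZMod.val_lt k)
      linarith
  rw [h1, h2] at h5
  have h6 : (N : ℝ) * ((2 - 2 * Real.cos (2 * Real.pi / N)) * ∑ j, x j ^ 2)
      ≤ N * ∑ j, (x (j + 1) - x j) ^ 2 := by linarith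
  exact le_of_mul_le_mul_left h6 hN

end Pool.Agent.U324.Relax
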