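import Mathlib
import Pool.Agent.U324.Relax.Wirtinger
import Pool.Agent.U324.Relax.Tour

set_option autoImplicit false

open Finset
open scoped BigOperators

namespace Pool.Agent.U324.Relax

lemma sum_zmod (N : ℕ) [NeZero N] (g : ℕ → ℝ) :
    ∑ i : ZMod N, g i.val = ∑ i ∈ Finset.range N, g i := by
  cases N with
  | zero => exact absurd rfl (NeZero.ne 0)
  | succ k => exact Fin.sum_univ_eq_sum_range g (k + 1)

variable {V : Type*} [Fintype V] [DecidableEq V]

/-- The exact spectral-gap bound: a connected graph with `m` edges has spectral gap at least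
that of the path with `m` edges. -/
theorem gap (G : SimpleGraph V) [DecidableRel G.Adj] (hG : G.Connected)
    (hm : 1 ≤ G.edgeFinset.card) (f : V → ℝ) :
    ∃ c : ℝ, (1 - Real.cos (Real.pi / G.edgeFinset.card)) *
        ∑ v, (G.degree v : ℝ) * (f v - c) ^ 2 ≤
      (1 / 2 : ℝ) * ∑ u, ∑ v, (if G.Adj u v then (f u - f v) ^ 2 else 0) := by
  set m := G.edgeFinset.card with hmdef
  obtain ⟨v0, l, hh, hl, hP⟩ := exists_tour G hG
  set w : ℕ → V := fun i => l.getD i v0 with hw
  set N := l.length - 1 with hN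
  have hlne : l ≠ [] := by
    rintro rfl
    simp at hh
  have hlen : 0 < l.length := List.length_pos_iff.mpr hlne
  have hw0 : w 0 = v0 := by
    cases l with
    | nil => exact absurd rfl hlne
    | cons a t => simpa [hw] using hh
  have hwN : w N = v0 := by
    rw [List.getLast?_eq_getElem?] at hl
    simp only [hw, hN, List.getD_eq_getElem?_getD, hl, Option.getD_some]
  have hsum : ∀ H : V → V → ℝ, ∑ i ∈ Finset.range N, H (w i) (w (i + 1))
      = ∑ u, ∑ v, if G.Adj u v then H u v else 0 := by
    intro H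
    rw [← hP H, P_eq_sum H v0 l]
  have hdeg : ∀ F : V → ℝ, ∑ i ∈ Finset.range N, F (w i) = ∑ v, (G.degree v : ℝ) * F v := by
    intro F
    rw [hsum (fun u _ => F u)]
    refine Finset.sum_congr rfl fun u _ => ?_
    rw [← Finset.sum_filter, Finset.sum_const, nsmul_eq_mul]
    congr 2
    rw [← SimpleGraph.card_neighborFinset_eq_degree]
    congr 1
    ext v
    simp
  have hN2 : (N : ℝ) = 2 * m := by
    have h1 := hdeg (fun _ => 1)
    simp only [Finset.sum_const, Finset.card_range, nsmul_eq_mul, mul_one] at h1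
    rw [h1]
    have := G.sum_degrees_eq_twice_card_edges
    rw [← Nat.cast_sum, this]
    push_cast
    rfl
  have hN2' : N = 2 * m := by exact_mod_cast hN2
  have hNpos : 2 ≤ N := by omega
  have : NeZero N := ⟨by omega⟩
  have hmpos : (0 : ℝ) < m := by exact_mod_cast hm
  set c : ℝ := (∑ v, (G.degree v : ℝ) * f v) / (2 * m) with hc
  refine ⟨c, ?_⟩
  set x : ZMod N → ℝ := fun i => f (w i.val) - c with hx
  have hx0 : ∑ j, x j = 0 := by
    rw [hx, sum_zmod N (fun i => f (w i) - c), Finset.sum_sub_distrib, hdeg f]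
    simp only [Finset.sum_const, Finset.card_range, nsmul_eq_mul]
    rw [hN2, hc]
    field_simp
    ring
  have hsq : ∑ j, x j ^ 2 = ∑ v, (G.degree v : ℝ) * (f v - c) ^ 2 := by
    rw [← hdeg (fun v => (f v - c) ^ 2)]
    exact sum_zmod N (fun i => (f (w i) - c) ^ 2)
  have hstep : ∀ j : ZMod N, w (j + 1).val = w (j.val + 1) := by
    intro j
    have h1 : (j + 1).val = (j.val + 1) % N := by
      rw [ZMod.val_add, ZMod.val_one_eq_one_mod, Nat.add_mod_mod]
    rw [h1]
    have h2 : j.val < N := ZMod.val_lt j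
    rcases Nat.lt_or_ge (j.val + 1) N with h | h
    · rw [Nat.mod_eq_of_lt h]
    · have : j.val + 1 = N := by omega
      rw [this, Nat.mod_self, hw0, hwN]
  have hdiff : ∑ j, (x (j + 1) - x j) ^ 2
      = ∑ u, ∑ v, (if G.Adj u v then (f u - f v) ^ 2 else 0) := by
    rw [← hsum (fun u v => (f u - f v) ^ 2), ← sum_zmod N (fun i => (f (w i) - f (w (i + 1))) ^ 2)]
    refine Finset.sum_congr rfl fun j _ => ?_
    simp only [hx, hstep]
    ring
  have hW := wirtinger x hx0
  rw [hsq, hdiff] at hW
  have hcos : 2 * Real.pi / (N : ℝ) = Real.pi / m := by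
    rw [hN2]
    field_simp
  rw [hcos] at hW
  linarith

end Pool.Agent.U324.Relax
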